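import Pool.Agent.Y478.WM.Defs

/-!
The double cover of the neighborhood complex of the product with the reflexive folded 5-cube. The
argument is the one of the starting result `MP_64e474_co/FoldedCubeTimesK4`, for an arbitrary second
factor.
-/

set_option autoImplicit false

namespace Pool.Agent.Y478.WM

open Topology Pool.Agent.H206R3.Clebsch Pool.Agent.H206R3.Warm

section
variable {W : Type} [Fintype W] [DecidableEq W] (G : SimpleGraph W)

/-- The realization of the neighborhood complex of the product. -/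
abbrev XX : Set (Fin 16 × W → ℝ) := realization (nbhdFaces (cubeTimes G))

variable {G}

omit [DecidableEq W] in
theorem mem_XX (x : Fin 16 × W → ℝ) : x ∈ XX G ↔
    (∀ v, 0 ≤ x v) ∧ ∑ v, x v = 1 ∧ ∃ y : Fin 16 × W, ∀ v, x v ≠ 0 → (cubeTimes G).Adj y v := by
  classical
  constructor
  · rintro ⟨h1, h2, s, ⟨-, y, hy⟩, hs⟩
    exact ⟨h1, h2, y, fun v hv => hy v (hs v hv)⟩
  · rintro ⟨h1, h2, y, hy⟩
    refine ⟨h1, h2, Finset.univ.filter (fun v => x v ≠ 0), ⟨?_, y, ?_⟩, ?_⟩
    · by_contra hne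
      rw [Finset.not_nonempty_iff_eq_empty, Finset.filter_eq_empty_iff] at hne
      have : ∑ v, x v = 0 := Finset.sum_eq_zero fun v hv => by
        have := hne hv
        simpa using this
      rw [this] at h2
      norm_num at h2
    · intro v hv
      exact hy v (Finset.mem_filter.1 hv).2
    · intro v hv
      exact Finset.mem_filter.2 ⟨Finset.mem_univ v, hv⟩

variable (G) in
/-- The double cover. -/
def EE : Set ((Fin 16 × W) × ZMod 2 → ℝ) :=
  {x | (∀ p, 0 ≤ x p) ∧ ∑ p, x p = 1 ∧
    (∃ y : Fin 16 × W, ∀ p : (Fin 16 × W) × ZMod 2, ¬ (cubeTimes G).Adj y p.1 → x p = 0) ∧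
    ∀ p q : (Fin 16 × W) × ZMod 2, q.2 ≠ p.2 + kap p.1.1 q.1.1 → x p * x q = 0}

omit [DecidableEq W] in
theorem isClosed_EE : IsClosed (EE G) := by
  have h1 : IsClosed {x : (Fin 16 × W) × ZMod 2 → ℝ | ∀ p, 0 ≤ x p} := by
    simp only [Set.ofPred_forall]
    exact isClosed_iInter fun p => isClosed_le continuous_const (continuous_apply p)
  have h2 : IsClosed {x : (Fin 16 × W) × ZMod 2 → ℝ | ∑ p, x p = 1} :=
    isClosed_eq (continuous_finsetSum _ fun p _ => continuous_apply p) continuous_const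
  have h3 : IsClosed {x : (Fin 16 × W) × ZMod 2 → ℝ |
      ∃ y : Fin 16 × W, ∀ p : (Fin 16 × W) × ZMod 2, ¬ (cubeTimes G).Adj y p.1 → x p = 0} := by
    simp only [Set.ofPred_exists, Set.ofPred_forall]
    refine isClosed_iUnion_of_finite fun y => isClosed_iInter fun p => isClosed_iInter fun _ => ?_
    exact isClosed_eq (continuous_apply p) continuous_const
  have h4 : IsClosed {x : (Fin 16 × W) × ZMod 2 → ℝ |
      ∀ p q : (Fin 16 × W) × ZMod 2, q.2 ≠ p.2 + kap p.1.1 q.1.1 → x p * x q = 0} := by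
    simp only [Set.ofPred_forall]
    refine isClosed_iInter fun p => isClosed_iInter fun q => isClosed_iInter fun _ => ?_
    exact isClosed_eq ((continuous_apply p).mul (continuous_apply q)) continuous_const
  exact h1.inter (h2.inter (h3.inter h4))

omit [DecidableEq W] in
theorem isCompact_EE : IsCompact (EE G) := by
  refine (isCompact_stdSimplex ℝ ((Fin 16 × W) × ZMod 2)).of_isClosed_subset isClosed_EE ?_
  intro x hx
  exact ⟨hx.1, hx.2.1⟩

instance : CompactSpace (EE G) := isCompact_iff_compactSpace.1 isCompact_EE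

/-- The projection of the double cover. -/
noncomputable def proj (x : EE G) : XX G :=
  ⟨fun v => ∑ i, x.1 (v, i), by
    rw [mem_XX]
    refine ⟨fun v => Finset.sum_nonneg fun i _ => x.2.1 _, ?_, ?_⟩
    · rw [← x.2.2.1]
      exact (Fintype.sum_prod_type (fun p : (Fin 16 × W) × ZMod 2 => x.1 p)).symm
    · obtain ⟨y, hy⟩ := x.2.2.2.1
      refine ⟨y, fun v hv => ?_⟩
      by_contra hc
      exact hv (Finset.sum_eq_zero fun i _ => hy (v, i) hc)⟩

omit [DecidableEq W] in
theorem proj_apply (x : EE G) (v : Fin 16 × W) : (proj x).1 v = ∑ i, x.1 (v, i) := rfl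

omit [DecidableEq W] in
theorem continuous_proj : Continuous (proj (G := G)) := by
  refine Continuous.subtype_mk ?_ _
  refine continuous_pi fun v => continuous_finsetSum _ fun i _ => ?_
  exact (continuous_apply (v, i)).comp continuous_subtype_val

omit [DecidableEq W] in
theorem eq_zero_of (x : EE G) {v₀ : Fin 16 × W} {i₀ : ZMod 2} (h : x.1 (v₀, i₀) ≠ 0)
    (v : Fin 16 × W) (j : ZMod 2) (hj : j ≠ i₀ + kap v₀.1 v.1) : x.1 (v, j) = 0 := by
  have := x.2.2.2.2 (v₀, i₀) (v, j) hj
  rcases mul_eq_zero.1 this with h1 | h1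
  · exact absurd h1 h
  · exact h1

omit [DecidableEq W] in
theorem eq_proj_of (x : EE G) {v₀ : Fin 16 × W} {i₀ : ZMod 2} (h : x.1 (v₀, i₀) ≠ 0)
    (v : Fin 16 × W) : x.1 (v, i₀ + kap v₀.1 v.1) = (proj x).1 v := by
  rw [proj_apply]
  symm
  refine Finset.sum_eq_single _ ?_ ?_
  · intro j _ hj
    exact eq_zero_of x h v j hj
  · intro hc
    exact absurd (Finset.mem_univ _) hc

omit [DecidableEq W] in
theorem exists_ne_zero (x : EE G) : ∃ v i, x.1 (v, i) ≠ 0 := by
  by_contra hc
  push Not at hc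
  have h := x.2.2.1
  rw [Finset.sum_eq_zero fun p _ => hc p.1 p.2] at h
  norm_num at h

/-- Translation on the cover. -/
noncomputable def tr (g : ZMod 2) (x : EE G) : EE G :=
  ⟨fun p => x.1 (p.1, p.2 + g), by
    refine ⟨fun p => x.2.1 _, ?_, ?_, ?_⟩
    · rw [← x.2.2.1]
      refine (Fintype.sum_prod_type (fun p : (Fin 16 × W) × ZMod 2 => x.1 (p.1, p.2 + g))).trans ?_
      refine Eq.trans ?_ (Fintype.sum_prod_type (fun p : (Fin 16 × W) × ZMod 2 => x.1 p)).symm
      refine Finset.sum_congr rfl fun v _ => ?_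
      exact Fintype.sum_equiv (Equiv.addRight g) _ _ fun i => rfl
    · obtain ⟨y, hy⟩ := x.2.2.2.1
      exact ⟨y, fun p hp => hy _ hp⟩
    · intro p q hpq
      refine x.2.2.2.2 (p.1, p.2 + g) (q.1, q.2 + g) ?_
      intro h
      apply hpq
      have h' : q.2 + g = p.2 + kap p.1.1 q.1.1 + g := by
        rw [show p.2 + kap p.1.1 q.1.1 + g = p.2 + g + kap p.1.1 q.1.1 by ring]
        exact h
      exact add_right_cancel h'⟩

noncomputable instance : AddAction (ZMod 2) (EE G) where
  vadd g x := tr g x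
  zero_vadd x := by
    apply Subtype.ext
    funext p
    show x.1 (p.1, p.2 + 0) = x.1 p
    rw [add_zero]
  add_vadd g h x := by
    apply Subtype.ext
    funext p
    show x.1 (p.1, p.2 + (g + h)) = x.1 (p.1, p.2 + g + h)
    rw [add_assoc]

omit [DecidableEq W] in
theorem continuous_tr (g : ZMod 2) : Continuous (tr (G := G) g) := by
  refine Continuous.subtype_mk ?_ _
  refine continuous_pi fun p => ?_
  exact (continuous_apply (p.1, p.2 + g)).comp continuous_subtype_val

omit [DecidableEq W] in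
theorem proj_tr (g : ZMod 2) (x : EE G) : proj (g +ᵥ x) = proj x := by
  apply Subtype.ext
  funext v
  rw [proj_apply, proj_apply]
  exact Fintype.sum_equiv (Equiv.addRight g) _ _ fun i => rfl

omit [DecidableEq W] in
theorem proj_surjective : Function.Surjective (proj (G := G)) := by
  rintro ⟨z, hz⟩
  obtain ⟨h1, h2, y, hy⟩ := (mem_XX z).1 hz
  have hmem : (fun p : (Fin 16 × W) × ZMod 2 => if p.2 = kap y.1 p.1.1 then z p.1 else 0) ∈
      EE G := by
    refine ⟨?_, ?_, ⟨y, ?_⟩, ?_⟩
    · intro p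
      dsimp only
      split_ifs
      · exact h1 _
      · exact le_rfl
    · rw [← h2]
      refine (Fintype.sum_prod_type
        (fun p : (Fin 16 × W) × ZMod 2 => if p.2 = kap y.1 p.1.1 then z p.1 else 0)).trans ?_
      refine Finset.sum_congr rfl fun v _ => ?_
      simp
    · intro p hp
      dsimp only
      split_ifs
      · by_contra hc
        exact hp (hy _ hc)
      · rfl
    · intro p q hpq
      dsimp only
      split_ifs with hp hq hq
      · by_contra hc
        have hc1 : z p.1 ≠ 0 := fun e => hc (by rw [e, zero_mul])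
        have hc2 : z q.1 ≠ 0 := fun e => hc (by rw [e, mul_zero])
        have := kap_cocycle y.1 y.1 (R_refl _) p.1.1 (hy _ hc1).1 q.1.1 (hy _ hc2).1
        exact hpq (by rw [hp, hq, this])
      all_goals simp
  refine ⟨⟨_, hmem⟩, ?_⟩
  apply Subtype.ext
  funext v
  rw [proj_apply]
  simp

omit [DecidableEq W] in
theorem mem_orbit_of (x x' : EE G) (h : proj x = proj x') :
    x ∈ AddAction.orbit (ZMod 2) x' := by
  obtain ⟨v₀, i₀, h0⟩ := exists_ne_zero x
  have h1 : (proj x).1 v₀ ≠ 0 := by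
    rw [← eq_proj_of x h0 v₀, kap_self, add_zero]
    exact h0
  rw [h] at h1
  obtain ⟨i₁, h2⟩ : ∃ i₁, x'.1 (v₀, i₁) ≠ 0 := by
    by_contra hc
    push Not at hc
    exact h1 (by rw [proj_apply]; exact Finset.sum_eq_zero fun i _ => hc i)
  refine ⟨i₁ - i₀, ?_⟩
  apply Subtype.ext
  funext ⟨v, j⟩
  show x'.1 (v, j + (i₁ - i₀)) = x.1 (v, j)
  by_cases hj : j = i₀ + kap v₀.1 v.1
  · rw [hj, eq_proj_of x h0 v, h, ← eq_proj_of x' h2 v]
    rw [show i₀ + kap v₀.1 v.1 + (i₁ - i₀) = i₁ + kap v₀.1 v.1 by ring]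
  · rw [eq_zero_of x h0 v j hj, eq_zero_of x' h2]
    intro hc
    apply hj
    have : j = j + (i₁ - i₀) - (i₁ - i₀) := by ring
    rw [this, hc]
    ring

omit [DecidableEq W] in
theorem isCoveringMap_proj : IsCoveringMap (proj (G := G)) := by
  have hq : IsQuotientMap (proj (G := G)) :=
    IsQuotientMap.of_surjective_continuous proj_surjective continuous_proj
  have : IsAddQuotientCoveringMap (proj (G := G)) (ZMod 2) :=
    { toIsQuotientMap := hq
      continuous_const_vadd := fun g => continuous_tr g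
      apply_eq_iff_mem_orbit := by
        intro x x'
        refine ⟨mem_orbit_of x x', ?_⟩
        rintro ⟨g, rfl⟩
        exact proj_tr g x'
      disjoint := by
        intro e
        obtain ⟨v₀, i₀, h0⟩ := exists_ne_zero e
        refine ⟨{x | x.1 (v₀, i₀) ≠ 0}, ?_, ?_⟩
        · refine IsOpen.mem_nhds ?_ h0
          exact isOpen_ne_fun ((continuous_apply (v₀, i₀)).comp continuous_subtype_val)
            continuous_const
        · rintro g ⟨_, ⟨x, hx, rfl⟩, hgx⟩
          have h1 : x.1 (v₀, i₀ + g) ≠ 0 := hgx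
          by_contra hg
          apply h1
          refine eq_zero_of x hx v₀ _ ?_
          rw [kap_self, add_zero]
          intro hc
          exact hg (by simpa using hc) }
  exact this.isCoveringMap

/-! ### A path in the cover joining the two preimages of a vertex -/

omit [Fintype W] [DecidableEq W] in
theorem eq_of_path {E X : Type*} [TopologicalSpace E] [TopologicalSpace X] {p : E → X}
    (cov : IsCoveringMap p) {x y : E} (h : p y = p x) (Γ : Path x y)
    (hs : Subsingleton (FundamentalGroup X (p x))) : x = y := by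
  have hs' : ∀ a : X, p x = a → Subsingleton (Path.Homotopic.Quotient (p x) a) := by
    rintro a rfl
    exact hs
  have := cov.monodromy_eq_of_map_eq (x := p x) (y := p x)
    (γ := Path.Homotopic.Quotient.refl (p x)) (ex := ⟨x, rfl⟩) (ey := ⟨y, h⟩)
    (Path.Homotopic.Quotient.mk Γ) (by
      have := hs' (p y) h.symm
      exact Subsingleton.elim _ _)
  rw [cov.monodromy_refl] at this
  exact congrArg Subtype.val this

/-- The vertices of the cover, as vectors. -/
noncomputable def dl (p : (Fin 16 × W) × ZMod 2) : (Fin 16 × W) × ZMod 2 → ℝ := Pi.single p 1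

omit [Fintype W] in
theorem dl_self (p : (Fin 16 × W) × ZMod 2) : dl p p = 1 := by simp [dl]

omit [Fintype W] in
theorem dl_ne {p r : (Fin 16 × W) × ZMod 2} (h : r ≠ p) : dl p r = 0 := by simp [dl, h]

theorem sum_dl (p : (Fin 16 × W) × ZMod 2) : ∑ r, dl p r = 1 := by simp [dl]

/-- Segments in the cover. -/
theorem segment_subset (p q : (Fin 16 × W) × ZMod 2) (y : Fin 16 × W)
    (hp : (cubeTimes G).Adj y p.1) (hq : (cubeTimes G).Adj y q.1)
    (h1 : q.2 = p.2 + kap p.1.1 q.1.1) (h2 : p.2 = q.2 + kap q.1.1 p.1.1) :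
    segment ℝ (dl p) (dl q) ⊆ EE G := by
  rintro z ⟨a, b, ha, hb, hab, rfl⟩
  have hz : ∀ r, (a • dl p + b • dl q) r = a * dl p r + b * dl q r := fun r => rfl
  have hnn : ∀ (p r : (Fin 16 × W) × ZMod 2), 0 ≤ dl p r := by
    intro p r
    by_cases h : r = p
    · rw [h, dl_self]; norm_num
    · rw [dl_ne h]
  have hsupp : ∀ r, (a • dl p + b • dl q) r ≠ 0 → r = p ∨ r = q := by
    intro r hr
    by_contra hc
    push Not at hc
    apply hr
    rw [hz, dl_ne hc.1, dl_ne hc.2]
    ring
  refine ⟨?_, ?_, ⟨y, ?_⟩, ?_⟩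
  · intro r
    rw [hz]
    exact add_nonneg (mul_nonneg ha (hnn _ _)) (mul_nonneg hb (hnn _ _))
  · rw [Finset.sum_congr rfl fun r _ => hz r, Finset.sum_add_distrib, ← Finset.mul_sum,
      ← Finset.mul_sum, sum_dl, sum_dl, mul_one, mul_one]
    exact hab
  · intro r hr
    by_contra hc
    rcases hsupp r hc with rfl | rfl
    · exact hr hp
    · exact hr hq
  · intro r s hrs
    by_contra hc
    have hc1 : (a • dl p + b • dl q) r ≠ 0 := fun e => hc (by rw [e, zero_mul])
    have hc2 : (a • dl p + b • dl q) s ≠ 0 := fun e => hc (by rw [e, mul_zero])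
    apply hrs
    rcases hsupp r hc1 with rfl | rfl <;> rcases hsupp s hc2 with rfl | rfl
    · rw [kap_self, add_zero]
    · exact h1
    · exact h2
    · rw [kap_self, add_zero]

section
variable {u w : W} (huw : G.Adj w u)
include huw

theorem seg1 : segment ℝ (dl (((0 : Fin 16), u), (0 : ZMod 2))) (dl (((3 : Fin 16), u), 0)) ⊆
    EE G :=
  segment_subset _ _ (1, w) ⟨(by decide : R 1 0), huw⟩ ⟨(by decide : R 1 3), huw⟩
    (by decide : (0 : ZMod 2) = 0 + kap 0 3) (by decide : (0 : ZMod 2) = 0 + kap 3 0)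

theorem seg2 : segment ℝ (dl (((3 : Fin 16), u), (0 : ZMod 2))) (dl (((12 : Fin 16), u), 1)) ⊆
    EE G :=
  segment_subset _ _ (3, w) ⟨(by decide : R 3 3), huw⟩ ⟨(by decide : R 3 12), huw⟩
    (by decide : (1 : ZMod 2) = 0 + kap 3 12) (by decide : (0 : ZMod 2) = 1 + kap 12 3)

theorem seg3 : segment ℝ (dl (((12 : Fin 16), u), (1 : ZMod 2))) (dl (((0 : Fin 16), u), 1)) ⊆
    EE G :=
  segment_subset _ _ (4, w) ⟨(by decide : R 4 12), huw⟩ ⟨(by decide : R 4 0), huw⟩
    (by decide : (1 : ZMod 2) = 1 + kap 12 0) (by decide : (1 : ZMod 2) = 1 + kap 0 12)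

theorem joined : JoinedIn (EE G) (dl (((0 : Fin 16), u), (0 : ZMod 2)))
    (dl (((0 : Fin 16), u), 1)) :=
  ((JoinedIn.of_segment_subset (seg1 huw)).trans (JoinedIn.of_segment_subset (seg2 huw))).trans
    (JoinedIn.of_segment_subset (seg3 huw))

theorem e0_mem : dl (((0 : Fin 16), u), (0 : ZMod 2)) ∈ EE G := seg1 huw (left_mem_segment ℝ _ _)

theorem e1_mem : dl (((0 : Fin 16), u), (1 : ZMod 2)) ∈ EE G := seg3 huw (right_mem_segment ℝ _ _)

theorem proj_eq : proj ⟨dl (((0 : Fin 16), u), 1), e1_mem huw⟩ =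
    proj ⟨dl (((0 : Fin 16), u), 0), e0_mem huw⟩ := by
  have h : (⟨dl (((0 : Fin 16), u), 0), e0_mem huw⟩ : EE G) =
      (1 : ZMod 2) +ᵥ (⟨dl (((0 : Fin 16), u), 1), e1_mem huw⟩ : EE G) := by
    apply Subtype.ext
    funext p
    show dl (((0 : Fin 16), u), (0 : ZMod 2)) p = dl (((0 : Fin 16), u), 1) (p.1, p.2 + 1)
    by_cases hp : p = (((0 : Fin 16), u), (0 : ZMod 2))
    · rw [hp, dl_self]
      show 1 = dl (((0 : Fin 16), u), (1 : ZMod 2)) (((0 : Fin 16), u), 0 + 1)
      rw [zero_add, dl_self]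
    · rw [dl_ne hp, dl_ne]
      intro hc
      apply hp
      have h1 := congrArg Prod.fst hc
      have h2 := congrArg Prod.snd hc
      refine Prod.ext h1 ?_
      have h3 : p.2 + 1 = 0 + 1 := by rw [zero_add]; exact h2
      exact add_right_cancel h3
  rw [h, proj_tr]

theorem e_ne : (⟨dl (((0 : Fin 16), u), 0), e0_mem huw⟩ : EE G) ≠
    ⟨dl (((0 : Fin 16), u), 1), e1_mem huw⟩ := by
  intro h
  have h1 := congrArg Subtype.val h
  have h2 : dl (((0 : Fin 16), u), (0 : ZMod 2)) (((0 : Fin 16), u), (0 : ZMod 2)) =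
      dl (((0 : Fin 16), u), 1) (((0 : Fin 16), u), 0) := congrFun h1 (((0 : Fin 16), u), 0)
  rw [dl_self, dl_ne] at h2
  · norm_num at h2
  · intro hc
    exact absurd (congrArg Prod.snd hc) (by decide : ¬ ((0 : ZMod 2) = 1))

theorem not_subsingleton_pi_one :
    ¬ Subsingleton (π_ 1 (XX G) (proj ⟨dl (((0 : Fin 16), u), 0), e0_mem huw⟩)) := by
  intro hs
  have hs' : Subsingleton (FundamentalGroup (XX G)
      (proj ⟨dl (((0 : Fin 16), u), 0), e0_mem huw⟩)) :=
    (HomotopyGroup.pi1EquivFundamentalGroup (X := XX G)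
      (x := proj ⟨dl (((0 : Fin 16), u), 0), e0_mem huw⟩)).symm.subsingleton
  obtain ⟨Γ⟩ := (joinedIn_iff_joined (e0_mem huw) (e1_mem huw)).1 (joined huw)
  exact e_ne huw (eq_of_path isCoveringMap_proj (proj_eq huw) Γ hs')

theorem conn_le : conn (XX G) ≤ 0 := by
  refine sSup_le ?_
  rintro c ⟨k, -, hk, rfl⟩
  have hk0 : k ≤ 0 := by
    by_contra hc
    exact not_subsingleton_pi_one huw (hk.2 1 (by push_cast; omega) _)
  have : ((k : ℝ) : EReal) ≤ ((0 : ℝ) : EReal) := by
    rw [EReal.coe_le_coe_iff]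
    exact_mod_cast hk0
  simpa using this

end

end

end Pool.Agent.Y478.WM
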