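import Pool.Agent.Y478.WM.Warmth
import Pool.Agent.Y478.WM.Cover

/-! The neighborhood complex of the product is path-connected. -/

set_option autoImplicit false

namespace Pool.Agent.Y478.WM

open Topology Pool.Agent.H206R3.Clebsch Pool.Agent.H206R3.Warm

section
variable {W : Type} {G : SimpleGraph W}

/-- Having a common neighbour. -/
def E2 {V : Type} (H : SimpleGraph V) (a b : V) : Prop := ∃ c, H.Adj c a ∧ H.Adj c b

theorem E2.symm {V : Type} {H : SimpleGraph V} {a b : V} (h : E2 H a b) : E2 H b a := by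
  obtain ⟨c, h1, h2⟩ := h
  exact ⟨c, h2, h1⟩

theorem star_shift {a s x y : W} (h : Relation.ReflTransGen (E2 G) s y) (has : G.Adj a s)
    (hxy : G.Adj x y) : Relation.ReflTransGen (E2 G) a x := by
  induction h using Relation.ReflTransGen.head_induction_on generalizing a with
  | refl => exact Relation.ReflTransGen.single ⟨y, has.symm, hxy.symm⟩
  | head h1 _ ih =>
    obtain ⟨c, hc1, hc2⟩ := h1
    exact Relation.ReflTransGen.head ⟨_, has.symm, hc1.symm⟩ (ih hc2)

/-- alternating map -/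
def alt (x y : W) (l : List (Fin 2)) : W := if l.length % 2 = 0 then x else y

theorem alt_cons (x y : W) (i : Fin 2) : (fun m => alt x y (i :: m)) = alt y x := by
  funext m
  show (if (i :: m).length % 2 = 0 then x else y) = if m.length % 2 = 0 then y else x
  rw [List.length_cons]
  rcases Nat.mod_two_eq_zero_or_one m.length with h0 | h0
  · rw [if_neg (by omega), if_pos h0]
  · rw [if_pos (by omega), if_neg (by omega)]

theorem isH_alt {x y : W} (h : G.Adj x y) : IsH G.Adj (alt x y) := by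
  intro l i
  show G.Adj (if l.length % 2 = 0 then x else y) (if (l ++ [i]).length % 2 = 0 then x else y)
  rw [List.length_append, List.length_singleton]
  rcases Nat.mod_two_eq_zero_or_one l.length with h0 | h0
  · rw [if_pos h0, if_neg (by omega)]; exact h
  · rw [if_neg (by omega), if_pos (by omega)]; exact h.symm

theorem pset_alt (k : ℕ) : ∀ (x y a : W), G.Adj x y → a ∈ Pset G.Adj k (alt x y) →
    Relation.ReflTransGen (E2 G) a x := by
  induction k with
  | zero =>
    intro x y a _ ha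
    have : a = x := ha
    rw [this]
  | succ k ih =>
    intro x y a hxy ha
    obtain ⟨s, hs, hr⟩ := ha 0
    rw [alt_cons] at hs
    exact star_shift (ih y x s hxy.symm hs) hr hxy

theorem two_step (hE : ∃ u v, G.Adj u v) (hG : IsWarm G 4) (a b : W) :
    Relation.ReflTransGen (E2 G) a b := by
  obtain ⟨u, v, huv⟩ := hE
  have hw := hG.2 (homOf (d := 2) (alt u v) (isH_alt huv))
  rw [not_cold_iff] at hw
  have key : ∀ a, Relation.ReflTransGen (E2 G) a u := by
    intro a
    obtain ⟨k, -, hk⟩ := hw a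
    exact pset_alt k u v a huv hk
  have hsymm : ∀ {a b : W}, Relation.ReflTransGen (E2 G) a b →
      Relation.ReflTransGen (E2 G) b a := by
    intro a b h
    induction h with
    | refl => exact Relation.ReflTransGen.refl
    | tail _ h2 ih => exact Relation.ReflTransGen.head h2.symm ih
  exact (key a).trans (hsymm (key b))

theorem exists_nbr (hE : ∃ u v, G.Adj u v) (hG : IsWarm G 4) (a : W) : ∃ b, G.Adj b a := by
  obtain ⟨u, v, huv⟩ := hE
  have hw := hG.2 (homOf (d := 2) (alt u v) (isH_alt huv))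
  rw [not_cold_iff] at hw
  obtain ⟨k, hk1, hk⟩ := hw a
  obtain ⟨k, rfl⟩ : ∃ m, k = m + 1 := ⟨k - 1, by omega⟩
  obtain ⟨s, -, hr⟩ := hk 0
  exact ⟨s, hr.symm⟩

theorem R_common : ∀ x y : Fin 16, ∃ z, R z x ∧ R z y := by decide

theorem two_step' (hE : ∃ u v, G.Adj u v) (hG : IsWarm G 4) (p q : Fin 16 × W) :
    Relation.ReflTransGen (E2 (cubeTimes G)) p q := by
  have h1 : ∀ {a b : W}, Relation.ReflTransGen (E2 G) a b →
      Relation.ReflTransGen (E2 (cubeTimes G)) (p.1, a) (p.1, b) := by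
    intro a b h
    induction h with
    | refl => exact Relation.ReflTransGen.refl
    | tail _ h2 ih =>
      obtain ⟨c, hc1, hc2⟩ := h2
      exact ih.tail ⟨(p.1, c), ⟨R_refl _, hc1⟩, ⟨R_refl _, hc2⟩⟩
  obtain ⟨b, hb⟩ := exists_nbr hE hG q.2
  obtain ⟨z, hz1, hz2⟩ := R_common p.1 q.1
  have h2 : E2 (cubeTimes G) (p.1, q.2) q := ⟨(z, b), ⟨hz1, hb⟩, ⟨hz2, hb⟩⟩
  exact (h1 (two_step hE hG p.2 q.2)).tail h2

variable [Fintype W]

/-- the vertices of the complex, as vectors -/
noncomputable def dv (p : Fin 16 × W) : Fin 16 × W → ℝ := by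
  classical exact Pi.single p 1

omit [Fintype W] in
theorem dv_self (p : Fin 16 × W) : dv p p = 1 := by simp [dv]

omit [Fintype W] in
theorem dv_ne {p r : Fin 16 × W} (h : r ≠ p) : dv p r = 0 := by simp [dv, h]

omit [Fintype W] in
theorem dv_nonneg (p r : Fin 16 × W) : 0 ≤ dv p r := by
  by_cases h : r = p
  · rw [h, dv_self]; norm_num
  · rw [dv_ne h]

theorem sum_dv (p : Fin 16 × W) : ∑ r, dv p r = 1 := by
  classical
  rw [Finset.sum_eq_single p (fun r _ hr => dv_ne hr) (fun h => absurd (Finset.mem_univ _) h),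
    dv_self]

theorem seg_XX (x x' : Fin 16 × W → ℝ) (hx : (∀ v, 0 ≤ x v) ∧ ∑ v, x v = 1)
    (hx' : (∀ v, 0 ≤ x' v) ∧ ∑ v, x' v = 1) (y : Fin 16 × W)
    (h : ∀ v, x v ≠ 0 → (cubeTimes G).Adj y v) (h' : ∀ v, x' v ≠ 0 → (cubeTimes G).Adj y v) :
    segment ℝ x x' ⊆ XX G := by
  rintro z ⟨a, b, ha, hb, hab, rfl⟩
  have hz : ∀ r, (a • x + b • x') r = a * x r + b * x' r := fun r => rfl
  rw [mem_XX]
  refine ⟨fun v => ?_, ?_, y, fun v hv => ?_⟩
  · rw [hz]
    exact add_nonneg (mul_nonneg ha (hx.1 _)) (mul_nonneg hb (hx'.1 _))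
  · rw [Finset.sum_congr rfl fun r _ => hz r, Finset.sum_add_distrib, ← Finset.mul_sum,
      ← Finset.mul_sum, hx.2, hx'.2, mul_one, mul_one]
    exact hab
  · by_contra hc
    apply hv
    have e1 : x v = 0 := by
      by_contra e
      exact hc (h v e)
    have e2 : x' v = 0 := by
      by_contra e
      exact hc (h' v e)
    rw [hz, e1, e2]
    ring

omit [Fintype W] in
theorem dv_supp {p : Fin 16 × W} {v : Fin 16 × W} (h : dv p v ≠ 0) : v = p := by
  by_contra hc
  exact h (dv_ne hc)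

theorem joined_dv {p q : Fin 16 × W} (h : E2 (cubeTimes G) p q) : JoinedIn (XX G) (dv p) (dv q) := by
  obtain ⟨y, h1, h2⟩ := h
  refine JoinedIn.of_segment_subset (seg_XX _ _ ⟨dv_nonneg p, sum_dv p⟩ ⟨dv_nonneg q, sum_dv q⟩ y
    ?_ ?_)
  · intro v hv
    rw [dv_supp hv]
    exact h1
  · intro v hv
    rw [dv_supp hv]
    exact h2

theorem dv_mem (hE : ∃ u v, G.Adj u v) (hG : IsWarm G 4) (p : Fin 16 × W) : dv p ∈ XX G := by
  obtain ⟨b, hb⟩ := exists_nbr hE hG p.2
  rw [mem_XX]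
  refine ⟨dv_nonneg p, sum_dv p, (p.1, b), fun v hv => ?_⟩
  rw [dv_supp hv]
  exact ⟨R_refl _, hb⟩

theorem joined_star (hE : ∃ u v, G.Adj u v) (hG : IsWarm G 4) {p q : Fin 16 × W}
    (h : Relation.ReflTransGen (E2 (cubeTimes G)) p q) : JoinedIn (XX G) (dv p) (dv q) := by
  induction h with
  | refl => exact JoinedIn.refl (dv_mem hE hG p)
  | tail _ h2 ih => exact ih.trans (joined_dv h2)

theorem joined_vertex (x : Fin 16 × W → ℝ) (hx : x ∈ XX G) : ∃ p, JoinedIn (XX G) x (dv p) := by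
  obtain ⟨h1, h2, y, hy⟩ := (mem_XX x).1 hx
  obtain ⟨p, hp⟩ : ∃ p, x p ≠ 0 := by
    by_contra hc
    push Not at hc
    rw [Finset.sum_eq_zero fun p _ => hc p] at h2
    norm_num at h2
  refine ⟨p, JoinedIn.of_segment_subset (seg_XX _ _ ⟨h1, h2⟩ ⟨dv_nonneg p, sum_dv p⟩ y hy ?_)⟩
  intro v hv
  rw [dv_supp hv]
  exact hy p hp

theorem isPathConnected_XX (hE : ∃ u v, G.Adj u v) (hG : IsWarm G 4) :
    IsPathConnected (XX G) := by
  obtain ⟨u, v, huv⟩ := hE
  refine ⟨dv (0, u), dv_mem ⟨u, v, huv⟩ hG _, fun {x} hx => ?_⟩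
  obtain ⟨p, hp⟩ := joined_vertex x hx
  exact (joined_star ⟨u, v, huv⟩ hG (two_step' ⟨u, v, huv⟩ hG _ _)).trans hp.symm

theorem zero_le_conn (hE : ∃ u v, G.Adj u v) (hG : IsWarm G 4) : 0 ≤ conn (XX G) := by
  have hp := isPathConnected_XX hE hG
  have hps : PathConnectedSpace (XX G) := isPathConnected_iff_pathConnectedSpace.1 hp
  refine le_sSup ⟨0, by norm_num, ⟨hps.nonempty, ?_⟩, by simp⟩
  intro i hi x
  have hi0 : i = 0 := by omega
  subst hi0
  have hsub : Subsingleton (ZerothHomotopy (XX G)) :=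
    (pathConnectedSpace_iff_zerothHomotopy.1 hps).2
  exact (HomotopyGroup.pi0EquivZerothHomotopy (X := XX G) (x := x)).subsingleton

theorem conn_eq (hE : ∃ u v, G.Adj u v) (hG : IsWarm G 4) : conn (XX G) = 0 := by
  classical
  refine le_antisymm ?_ (zero_le_conn hE hG)
  obtain ⟨u, v, huv⟩ := hE
  exact conn_le huv

end

end Pool.Agent.Y478.WM
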