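import Mathlib
import Pool.Agent.H206R3.Warm

/-!
# Warmth, the neighborhood complex and its connectivity

The definitions are those of the starting result `MP_64e474_co/FoldedCubeTimesK4`.
-/

set_option autoImplicit false

namespace Pool.Agent.Y478.WM

open Topology Pool.Agent.H206R3.Clebsch Pool.Agent.H206R3.Warm

/-- The infinite rooted tree `T^d`: vertices are finite words over `Fin d`, the root is the empty
word, and the children of `l` are the words `l ++ [i]`.  The distance of a vertex from the root is
its length. -/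
def treeGraph (d : ℕ) : SimpleGraph (List (Fin d)) where
  Adj l l' := (∃ i, l' = l ++ [i]) ∨ (∃ i, l = l' ++ [i])
  symm := ⟨fun _ _ h => h.symm⟩
  loopless := ⟨fun l h => by
    rcases h with ⟨i, h⟩ | ⟨i, h⟩ <;>
    · have := congrArg List.length h
      simp at this⟩

/-- A homomorphism `φ : T^d → G` is cold if there is a vertex `a` such that for every `k ≥ 1` no
homomorphism `ψ : T^d → G` agrees with `φ` on all vertices at distance `k` from the root and
has value `a` at the root. -/
def IsCold {V : Type} {G : SimpleGraph V} {d : ℕ} (φ : treeGraph d →g G) : Prop :=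
  ∃ a : V, ∀ k : ℕ, 1 ≤ k → ¬ ∃ ψ : treeGraph d →g G,
    (∀ l : List (Fin d), l.length = k → ψ l = φ l) ∧ ψ [] = a

/-- `G` is `d`-warm (`d ≥ 2`) if no homomorphism `T^(d-2) → G` is cold. -/
def IsWarm {V : Type} (G : SimpleGraph V) (d : ℕ) : Prop :=
  2 ≤ d ∧ ∀ φ : treeGraph (d - 2) →g G, ¬ IsCold φ

/-- The warmth of `G`: the largest `d` such that `G` is `d`-warm. -/
noncomputable def warmth {V : Type} (G : SimpleGraph V) : EReal :=
  sSup {c : EReal | ∃ d : ℕ, IsWarm G d ∧ c = d}

/-- The faces of the neighborhood complex: the nonempty vertex sets with a common neighbour. -/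
def nbhdFaces {V : Type} (G : SimpleGraph V) : Set (Finset V) :=
  {s | s.Nonempty ∧ ∃ y, ∀ v ∈ s, G.Adj y v}

/-- The geometric realization of a simplicial complex on a finite vertex set given by its faces:
vectors of barycentric coordinates whose support lies in a face, with the subspace topology. -/
def realization {V : Type} [Fintype V] (K : Set (Finset V)) : Set (V → ℝ) :=
  {x | (∀ v, 0 ≤ x v) ∧ ∑ v, x v = 1 ∧ ∃ s ∈ K, ∀ v, x v ≠ 0 → v ∈ s}

/-- `X` is `k`-connected (`k ≥ -1`): `X` is nonempty and `π_i(X, x)` is trivial for all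
`0 ≤ i ≤ k` and all base points `x`. -/
def IsKConnected (X : Type) [TopologicalSpace X] (k : ℤ) : Prop :=
  Nonempty X ∧ ∀ i : ℕ, (i : ℤ) ≤ k → ∀ x : X, Subsingleton (π_ i X x)

/-- The connectivity `conn[X]`: the largest `k ≥ -1` such that `X` is `k`-connected (`⊤` if it is
`k`-connected for every `k`, and `⊥` if `X` is empty). -/
noncomputable def conn (X : Type) [TopologicalSpace X] : EReal :=
  sSup {c : EReal | ∃ k : ℤ, -1 ≤ k ∧ IsKConnected X k ∧ c = ((k : ℝ) : EReal)}

theorem R_refl : ∀ x : Fin 16, R x x := by decide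

/-- The product of the reflexive folded `5`-cube `R` (16 vertices, two of them are adjacent if they
are equal or adjacent in the folded `5`-cube) and the graph `G`. -/
def cubeTimes {W : Type} (G : SimpleGraph W) : SimpleGraph (Fin 16 × W) where
  Adj a b := R a.1 b.1 ∧ G.Adj a.2 b.2
  symm := ⟨fun _ _ h => ⟨R_symm _ _ h.1, h.2.symm⟩⟩
  loopless := ⟨fun _ h => h.2.ne rfl⟩

end Pool.Agent.Y478.WM
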