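import Pool.Agent.Y478.WM.Defs

/-! The warmth of the product with the reflexive folded 5-cube. -/

set_option autoImplicit false

namespace Pool.Agent.Y478.WM

open Topology Pool.Agent.H206R3.Clebsch Pool.Agent.H206R3.Warm

theorem pset_mono {V : Type*} {d : ℕ} (Rel : V → V → Prop) (k : ℕ) :
    ∀ (φ : List (Fin d) → V), IsH Rel φ → Pset Rel k φ ⊆ Pset Rel (k + 1) φ := by
  induction k with
  | zero =>
    intro φ hφ a ha
    have ha' : a = φ [] := ha
    subst ha'
    exact root_mem Rel 1 φ hφ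
  | succ k ih =>
    intro φ hφ a ha i
    obtain ⟨s, hs, hr⟩ := ha i
    exact ⟨s, ih _ (hφ.cons i) hs, hr⟩

theorem pset_mono' {V : Type*} {d : ℕ} (Rel : V → V → Prop) (φ : List (Fin d) → V)
    (hφ : IsH Rel φ) {k m : ℕ} (h : k ≤ m) : Pset Rel k φ ⊆ Pset Rel m φ := by
  induction h with
  | refl => exact subset_rfl
  | step _ ih => exact ih.trans (pset_mono Rel _ φ hφ)

theorem mem_pset_of {V : Type*} {d : ℕ} (Rel : V → V → Prop) (k : ℕ) :
    ∀ (φ ψ : List (Fin d) → V), IsH Rel ψ → (∀ l : List (Fin d), l.length = k → ψ l = φ l) →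
      ψ [] ∈ Pset Rel k φ := by
  induction k with
  | zero => intro φ ψ _ h; exact h [] rfl
  | succ k ih =>
    intro φ ψ hψ h i
    refine ⟨ψ [i], ih (fun m => φ (i :: m)) (fun m => ψ (i :: m)) (hψ.cons i) ?_, hψ [] i⟩
    intro l hl
    exact h (i :: l) (by simp [hl])

theorem isH_hom {V : Type} {G : SimpleGraph V} {d : ℕ} (φ : treeGraph d →g G) :
    IsH G.Adj (fun l => φ l) :=
  fun (l : List (Fin d)) i => φ.map_rel (show (treeGraph d).Adj l (l ++ [i]) from Or.inl ⟨i, rfl⟩)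

/-- The homomorphism given by a relation-preserving map. -/
def homOf {V : Type} {G : SimpleGraph V} {d : ℕ} (f : List (Fin d) → V) (hf : IsH G.Adj f) :
    treeGraph d →g G where
  toFun := f
  map_rel' := by
    intro l l' h
    rcases h with ⟨i, rfl⟩ | ⟨i, rfl⟩
    · exact hf l i
    · exact (hf l' i).symm

theorem homOf_apply {V : Type} {G : SimpleGraph V} {d : ℕ} (f : List (Fin d) → V)
    (hf : IsH G.Adj f) (l : List (Fin d)) : homOf f hf l = f l := rfl

theorem not_cold_iff {V : Type} {G : SimpleGraph V} {d : ℕ} (φ : treeGraph d →g G) :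
    ¬ IsCold φ ↔ ∀ a : V, ∃ k : ℕ, 1 ≤ k ∧ a ∈ Pset G.Adj k (fun l => φ l) := by
  constructor
  · intro h a
    by_contra hc
    push Not at hc
    refine h ⟨a, fun k hk ⟨ψ, h1, h2⟩ => hc k hk ?_⟩
    have := mem_pset_of G.Adj k (fun l => φ l) (fun l => ψ l) (isH_hom ψ) h1
    rw [h2] at this
    exact this
  · rintro h ⟨a, ha⟩
    obtain ⟨k, hk, hk'⟩ := h a
    obtain ⟨f, hf0, hf, hfa⟩ := exists_extension G.Adj k (fun l => φ l) (isH_hom φ) a hk'
    exact ha k hk ⟨homOf f hf, fun l hl => hfa l hl.ge, hf0⟩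

/-- warmth is monotone -/
theorem warm_four {V : Type} {G : SimpleGraph V} {d : ℕ} (h4 : 4 ≤ d) (h : IsWarm G d) :
    IsWarm G 4 := by
  refine ⟨by norm_num, fun φ => ?_⟩
  have e2 : 2 ≤ d - 2 := by omega
  let s : Fin 2 → Fin (d - 2) := Fin.castLE e2
  let r : Fin (d - 2) → Fin 2 := fun i => if h : i.1 < 2 then ⟨i.1, h⟩ else 0
  have hrs : ∀ i, r (s i) = i := by
    intro i
    have h1 : (s i).1 < 2 := i.2
    show (if h : (s i).1 < 2 then (⟨(s i).1, h⟩ : Fin 2) else 0) = i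
    rw [dif_pos h1]
    rfl
  have hφ' : IsH G.Adj (fun l : List (Fin (d - 2)) => φ (l.map r)) := by
    intro l i
    show G.Adj (φ (l.map r)) (φ ((l ++ [i]).map r))
    rw [List.map_append]
    exact isH_hom φ (l.map r) (r i)
  have hw := h.2 (homOf _ hφ')
  rw [not_cold_iff] at hw ⊢
  intro a
  obtain ⟨k, hk, hk'⟩ := hw a
  obtain ⟨f, hf0, hf, hfa⟩ := exists_extension G.Adj k _ hφ' a hk'
  refine ⟨k, hk, ?_⟩
  have := mem_pset_of G.Adj k (fun l => φ l) (fun l : List (Fin 2) => f (l.map s)) (by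
    intro l i
    show G.Adj (f (l.map s)) (f ((l ++ [i]).map s))
    rw [List.map_append]
    exact hf (l.map s) (s i)) (by
    intro l hl
    rw [hfa (l.map s) (by simp [hl])]
    show φ ((l.map s).map r) = φ l
    rw [List.map_map]
    congr 1
    conv_rhs => rw [← List.map_id l]
    exact List.map_congr_left fun i _ => hrs i)
  simpa [hf0] using this

theorem warm_of_four_le {V : Type} {G : SimpleGraph V} (h : 4 ≤ warmth G) : IsWarm G 4 := by
  by_contra hc
  have h1 : warmth G ≤ 3 := by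
    refine sSup_le ?_
    rintro c ⟨d, hd, rfl⟩
    have hd4 : d < 4 := by
      by_contra hd4
      exact hc (warm_four (by omega) hd)
    have : d ≤ 3 := by omega
    exact_mod_cast this
  have h2 : (4 : EReal) ≤ 3 := h.trans h1
  have h3 : ((4 : ℝ) : EReal) ≤ ((3 : ℝ) : EReal) := h2
  rw [EReal.coe_le_coe_iff] at h3
  norm_num at h3

section
variable {W : Type} {G : SimpleGraph W}

theorem four_warm (hG : IsWarm G 4) : IsWarm (cubeTimes G) 4 := by
  refine ⟨by norm_num, fun φ => ?_⟩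
  have hH : IsH (d := 2) (cubeTimes G).Adj (fun l => φ l) := isH_hom φ
  have h1 : IsH (d := 2) R (fun l => (φ l).1) := fun l i => (hH l i).1
  have h2 : IsH (d := 2) G.Adj (fun l => (φ l).2) := fun l i => (hH l i).2
  have hw := hG.2 (homOf (d := 2) (fun l => (φ l).2) h2)
  rw [not_cold_iff] at hw ⊢
  intro a
  obtain ⟨k, hk, hk'⟩ := hw a.2
  have hk'' : a.2 ∈ Pset (d := 2) G.Adj (k + 4) (fun l => (φ l).2) :=
    pset_mono' G.Adj _ h2 (Nat.le_add_right k 4) hk'
  have hR : a.1 ∈ Pset (d := 2) R (k + 4) (fun l => (φ l).1) :=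
    pset_mono' R _ h1 (Nat.le_add_left 4 k) (pset4 _ h1 a.1)
  exact ⟨k + 4, by omega, pset_prod R G.Adj (k + 4) (fun l => φ l) a.1 a.2 hR hk''⟩

theorem four_le (h : 4 ≤ warmth G) : 4 ≤ warmth (cubeTimes G) :=
  le_sSup ⟨4, four_warm (warm_of_four_le h), by simp⟩

/-! ### The upper bound -/

/-- the step in the direction `i` -/
def stp (x : Fin 16) (i : ℕ) : Fin 16 :=
  if i % 3 = 0 then ⟨x.1 ^^^ 1, by have := x.2; revert x; decide⟩
  else if i % 3 = 1 then ⟨x.1 ^^^ 2, by have := x.2; revert x; decide⟩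
  else ⟨x.1 ^^^ 4, by have := x.2; revert x; decide⟩

theorem stp_R (x : Fin 16) (i : ℕ) : R x (stp x i) := by
  have h : ∀ x : Fin 16, ∀ j : Fin 3, R x (stp x j.1) := by decide
  have e : stp x i = stp x (i % 3) := by
    simp [stp]
  rw [e]
  exact h x ⟨i % 3, Nat.mod_lt _ (by norm_num)⟩

theorem stp_frozen : ∀ x v : Fin 16, R v (stp x 0) → R v (stp x 1) → R v (stp x 2) → v = x := by
  decide

/-- the frozen map -/
def fz (D : ℕ) (x : Fin 16) (l : List (Fin D)) : Fin 16 := l.foldl (fun y i => stp y i.1) x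

theorem pset_fz (D : ℕ) (hD : 3 ≤ D) (k : ℕ) : ∀ (x v : Fin 16), v ∈ Pset R k (fz D x) → v = x := by
  induction k with
  | zero => intro x v hv; exact hv
  | succ k ih =>
    intro x v hv
    have key : ∀ i : Fin D, R v (stp x i.1) := by
      intro i
      obtain ⟨s, hs, hr⟩ := hv i
      have : s = stp x i.1 := ih (stp x i.1) s hs
      rw [← this]
      exact hr
    exact stp_frozen x v (key ⟨0, by omega⟩) (key ⟨1, by omega⟩) (key ⟨2, by omega⟩)

theorem warm_le_four (hE : ∃ u v, G.Adj u v) (d : ℕ) (h : IsWarm (cubeTimes G) d) : d ≤ 4 := by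
  by_contra hd
  obtain ⟨u, v, huv⟩ := hE
  have hf : IsH (d := d - 2) (cubeTimes G).Adj
      (fun l => (fz (d - 2) 0 l, if l.length % 2 = 0 then u else v)) := by
    intro l i
    refine ⟨?_, ?_⟩
    · show R (fz (d - 2) 0 l) (fz (d - 2) 0 (l ++ [i]))
      rw [fz, fz, List.foldl_append]
      exact stp_R _ _
    · show G.Adj (if l.length % 2 = 0 then u else v) (if (l ++ [i]).length % 2 = 0 then u else v)
      rw [List.length_append, List.length_singleton]
      rcases Nat.mod_two_eq_zero_or_one l.length with h0 | h0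
      · rw [if_pos h0, if_neg (by omega)]; exact huv
      · rw [if_neg (by omega), if_pos (by omega)]; exact huv.symm
  apply h.2 (homOf _ hf)
  refine ⟨(1, u), fun k _ ⟨ψ, h1, h2⟩ => ?_⟩
  have h3 := mem_pset_of R k (fz (d - 2) 0) (fun l => (ψ l).1)
    (fun l i => (isH_hom ψ l i).1) (fun l hl => by
      show (ψ l).1 = _
      rw [h1 l hl]
      rfl)
  have h4 := pset_fz (d - 2) (by omega) k 0 _ h3
  have h5 : (ψ []).1 = 1 := by rw [h2]
  rw [h5] at h4
  exact absurd h4 (by decide)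

theorem warmth_eq (hE : ∃ u v, G.Adj u v) (h : 4 ≤ warmth G) : warmth (cubeTimes G) = 4 := by
  refine le_antisymm ?_ (four_le h)
  refine sSup_le ?_
  rintro c ⟨d, hd, rfl⟩
  have := warm_le_four hE d hd
  exact_mod_cast this

end

/-! ### Complete graphs -/

theorem warm_top (n : ℕ) (hn : 4 ≤ n) : IsWarm (⊤ : SimpleGraph (Fin n)) 4 := by
  have key : ∀ a b v : Fin n, ∃ s, s ≠ a ∧ s ≠ b ∧ v ≠ s := by
    intro a b v
    obtain ⟨s, hs⟩ := Finset.exists_mem_notMem_of_card_lt_card (s := {a, b, v})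
      (t := (Finset.univ : Finset (Fin n)))
      (lt_of_le_of_lt Finset.card_le_three (by rw [Finset.card_univ, Fintype.card_fin]; omega))
    simp only [Finset.mem_univ, Finset.mem_insert, Finset.mem_singleton, not_or, true_and] at hs
    exact ⟨s, hs.1, hs.2.1, fun h => hs.2.2 h.symm⟩
  refine ⟨by norm_num, fun φ => ?_⟩
  rw [not_cold_iff]
  intro v
  refine ⟨2, by norm_num, fun i => ?_⟩
  obtain ⟨s, h1, h2, h3⟩ := key (φ [i, (0 : Fin 2)]) (φ [i, (1 : Fin 2)]) v
  refine ⟨s, fun j => ⟨φ [i, j], rfl, ?_⟩, h3⟩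
  have hj : j = 0 ∨ j = 1 := by
    revert j
    decide
  rcases hj with rfl | rfl
  · exact h1
  · exact h2

theorem four_le_top (n : ℕ) (hn : 4 ≤ n) : 4 ≤ warmth (⊤ : SimpleGraph (Fin n)) :=
  le_sSup ⟨4, warm_top n hn, by simp⟩

end Pool.Agent.Y478.WM
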